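import Mathlib
import Pool.Agent.QuasiId

/-!
# Finite Jordan rings without a finite basis of quasi-identities

A finite ring which has a finite basis of quasi-identities has only nilpotent subrings with zero
multiplication. For every prime `p` there is a Jordan ring with `p ^ 4` elements which is not
associative and has no finite basis. For odd `p` and `n ≥ 3` the Jordan ring of the symmetric
`n × n` matrices over `ZMod p` has no finite basis.
-/

set_option autoImplicit false

namespace Pool.Agent.Results.MP_db5ef1_al.JordanRings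

open Pool.Agent.QuasiId Matrix

/-! ### Nilpotent Jordan rings which are not associative -/

/-- Quadruples `(a, b, c, d)` over `ZMod p` with the commutative product
`(a, b, c, d) (a', b', c', d') = (0, 0, a a', b c' + c b')`. -/
def Ring4 (p : ℕ) : Type := ZMod p × ZMod p × ZMod p × ZMod p

instance (p : ℕ) : AddCommGroup (Ring4 p) :=
  inferInstanceAs (AddCommGroup (ZMod p × ZMod p × ZMod p × ZMod p))

instance (p : ℕ) [NeZero p] : Finite (Ring4 p) :=
  inferInstanceAs (Finite (ZMod p × ZMod p × ZMod p × ZMod p))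

instance (p : ℕ) : NonUnitalNonAssocRing (Ring4 p) :=
  { (inferInstance : AddCommGroup (Ring4 p)) with
    mul := fun x y => (0, 0, x.1 * y.1, x.2.1 * y.2.2.1 + x.2.2.1 * y.2.1)
    left_distrib := fun x y z => by
      change ((0, 0, x.1 * (y.1 + z.1), x.2.1 * (y.2.2.1 + z.2.2.1) + x.2.2.1 * (y.2.1 + z.2.1)) :
        ZMod p × ZMod p × ZMod p × ZMod p) = (0 + 0, 0 + 0, x.1 * y.1 + x.1 * z.1,
        (x.2.1 * y.2.2.1 + x.2.2.1 * y.2.1) + (x.2.1 * z.2.2.1 + x.2.2.1 * z.2.1))
      ext <;> simp <;> ring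
    right_distrib := fun x y z => by
      change ((0, 0, (x.1 + y.1) * z.1, (x.2.1 + y.2.1) * z.2.2.1 + (x.2.2.1 + y.2.2.1) * z.2.1) :
        ZMod p × ZMod p × ZMod p × ZMod p) = (0 + 0, 0 + 0, x.1 * z.1 + y.1 * z.1,
        (x.2.1 * z.2.2.1 + x.2.2.1 * z.2.1) + (y.2.1 * z.2.2.1 + y.2.2.1 * z.2.1))
      ext <;> simp <;> ring
    zero_mul := fun x => by
      change ((0, 0, 0 * x.1, 0 * x.2.2.1 + 0 * x.2.1) :
        ZMod p × ZMod p × ZMod p × ZMod p) = 0
      ext <;> simp
    mul_zero := fun x => by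
      change ((0, 0, x.1 * 0, x.2.1 * 0 + x.2.2.1 * 0) :
        ZMod p × ZMod p × ZMod p × ZMod p) = 0
      ext <;> simp }

lemma Ring4.mul_def {p : ℕ} (x y : Ring4 p) :
    x * y = ((0, 0, x.1 * y.1, x.2.1 * y.2.2.1 + x.2.2.1 * y.2.1) :
      ZMod p × ZMod p × ZMod p × ZMod p) := rfl

lemma Ring4.card (p : ℕ) [NeZero p] : Nat.card (Ring4 p) = p ^ 4 := by
  have : Nat.card (ZMod p × ZMod p × ZMod p × ZMod p) = p ^ 4 := by
    rw [Nat.card_eq_fintype_card]
    simp only [Fintype.card_prod, ZMod.card]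
    ring
  exact this

lemma Ring4.jordan (p : ℕ) : IsJordanRing (Ring4 p) := by
  refine ⟨fun x y => ?_, fun x y => ?_⟩
  · exact Prod.ext rfl (Prod.ext rfl (Prod.ext (mul_comm x.1 y.1) (by
      show x.2.1 * y.2.2.1 + x.2.2.1 * y.2.1 = y.2.1 * x.2.2.1 + y.2.2.1 * x.2.1
      ring)))
  · exact Prod.ext rfl (Prod.ext rfl (Prod.ext (by
      show (0 : ZMod p) * x.1 = 0 * 0
      ring) (by
      show (0 : ZMod p) * x.2.2.1 + (0 * y.1) * x.2.1 = 0 * (y.1 * x.1) + (x.1 * x.1) * 0
      ring)))

lemma Ring4.not_assoc (p : ℕ) [Fact p.Prime] : ¬ IsAssociativeRing (Ring4 p) := by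
  intro h
  let a : Ring4 p := ((1, 0, 0, 0) : ZMod p × ZMod p × ZMod p × ZMod p)
  let b : Ring4 p := ((0, 1, 0, 0) : ZMod p × ZMod p × ZMod p × ZMod p)
  have h1 := h a a b
  have h2 : ((a * a) * b).2.2.2 = (a * (a * b)).2.2.2 := by rw [h1]
  have h3 : ((a * a) * b).2.2.2 = 1 := by
    show (0 : ZMod p) * 0 + (1 * 1) * 1 = 1
    ring
  have h4 : (a * (a * b)).2.2.2 = 0 := by
    show (0 : ZMod p) * (1 * 0) + 0 * 0 = 0
    ring
  rw [h3, h4] at h2
  exact one_ne_zero h2

lemma Ring4.nil (p : ℕ) : NilpotentRing (Ring4 p) := by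
  -- weights: `a`, `b` have weight one, `c` weight two, `d` weight three
  have key : ∀ (k : ℕ) (x : Ring4 p), IsProduct k x →
      (2 ≤ k → x.1 = 0 ∧ x.2.1 = 0) ∧ (3 ≤ k → x.2.2.1 = 0) ∧ (4 ≤ k → x.2.2.2 = 0) ∧ 1 ≤ k := by
    intro k x hx
    induction hx with
    | elem a => exact ⟨by omega, by omega, by omega, le_rfl⟩
    | @mul i j a b _ _ h1 h2 =>
      obtain ⟨h11, h12, h13, h14⟩ := h1
      obtain ⟨h21, h22, h23, h24⟩ := h2
      refine ⟨fun _ => ⟨rfl, rfl⟩, fun hk => ?_, fun hk => ?_, by omega⟩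
      · show a.1 * b.1 = 0
        rcases (by omega : 2 ≤ i ∨ 2 ≤ j) with h | h
        · rw [(h11 h).1, zero_mul]
        · rw [(h21 h).1, mul_zero]
      · show a.2.1 * b.2.2.1 + a.2.2.1 * b.2.1 = 0
        have e1 : a.2.1 * b.2.2.1 = 0 := by
          rcases (by omega : 2 ≤ i ∨ 3 ≤ j) with h | h
          · rw [(h11 h).2, zero_mul]
          · rw [h22 h, mul_zero]
        have e2 : a.2.2.1 * b.2.1 = 0 := by
          rcases (by omega : 3 ≤ i ∨ 2 ≤ j) with h | h
          · rw [h12 h, zero_mul]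
          · rw [(h21 h).2, mul_zero]
        rw [e1, e2, add_zero]
  refine ⟨4, by norm_num, fun x hx => ?_⟩
  obtain ⟨h1, h2, h3, _⟩ := key 4 x hx
  have e1 := (h1 (by norm_num)).1
  have e2 := (h1 (by norm_num)).2
  have e3 := h2 (by norm_num)
  have e4 := h3 le_rfl
  exact Prod.ext e1 (Prod.ext e2 (Prod.ext e3 e4))

/-! ### Symmetric matrices -/

/-- The symmetric `n × n` matrices over `ZMod p` (as an additive group). -/
def symGroup (n p : ℕ) : AddSubgroup (Matrix (Fin n) (Fin n) (ZMod p)) where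
  carrier := {M | Mᵀ = M}
  zero_mem' := transpose_zero
  add_mem' := fun {a b} ha hb => by
    show (a + b)ᵀ = a + b
    rw [transpose_add, ha, hb]
  neg_mem' := fun {a} ha => by
    show (-a)ᵀ = -a
    rw [transpose_neg, ha]

/-- The Jordan ring of the symmetric `n × n` matrices over `ZMod p` with the product
`x y + y x`. -/
def SymRing (n p : ℕ) : Type := symGroup n p

instance (n p : ℕ) : AddCommGroup (SymRing n p) := inferInstanceAs (AddCommGroup (symGroup n p))

instance (n p : ℕ) [NeZero p] : Finite (SymRing n p) := inferInstanceAs (Finite (symGroup n p))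

/-- The product `x y + y x` of symmetric matrices. -/
def SymRing.mul {n p : ℕ} (x y : SymRing n p) : SymRing n p :=
  ⟨x.1 * y.1 + y.1 * x.1, by
    show (x.1 * y.1 + y.1 * x.1)ᵀ = x.1 * y.1 + y.1 * x.1
    have hx : (x.1)ᵀ = x.1 := x.2
    have hy : (y.1)ᵀ = y.1 := y.2
    rw [transpose_add, transpose_mul, transpose_mul, hx, hy, add_comm]⟩

instance (n p : ℕ) : NonUnitalNonAssocRing (SymRing n p) :=
  { (inferInstance : AddCommGroup (SymRing n p)) with
    mul := SymRing.mul
    left_distrib := fun x y z => Subtype.ext (by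
      change x.1 * (y.1 + z.1) + (y.1 + z.1) * x.1 =
        (x.1 * y.1 + y.1 * x.1) + (x.1 * z.1 + z.1 * x.1)
      noncomm_ring)
    right_distrib := fun x y z => Subtype.ext (by
      change (x.1 + y.1) * z.1 + z.1 * (x.1 + y.1) =
        (x.1 * z.1 + z.1 * x.1) + (y.1 * z.1 + z.1 * y.1)
      noncomm_ring)
    zero_mul := fun x => Subtype.ext (by
      change 0 * x.1 + x.1 * 0 = 0
      rw [zero_mul, mul_zero, add_zero])
    mul_zero := fun x => Subtype.ext (by
      change x.1 * 0 + 0 * x.1 = 0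
      rw [zero_mul, mul_zero, add_zero]) }

lemma SymRing.val_mul {n p : ℕ} (x y : SymRing n p) : (x * y).1 = x.1 * y.1 + y.1 * x.1 := rfl

lemma SymRing.jordan (n p : ℕ) : IsJordanRing (SymRing n p) := by
  refine ⟨fun x y => Subtype.ext ?_, fun x y => Subtype.ext ?_⟩
  · rw [val_mul, val_mul, add_comm]
  · simp only [val_mul]
    noncomm_ring

lemma SymRing.not_assoc {n p : ℕ} (hn : 2 ≤ n) [Fact p.Prime] :
    ¬ IsAssociativeRing (SymRing n p) := by
  intro h
  let i : Fin n := ⟨0, by omega⟩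
  let j : Fin n := ⟨1, by omega⟩
  have hij : i ≠ j := by simp [i, j]
  let e : SymRing n p := ⟨single i i 1, by
    show (single i i (1 : ZMod p))ᵀ = single i i 1
    rw [transpose_single]⟩
  let f : SymRing n p := ⟨single i j 1 + single j i 1, by
    show (single i j (1 : ZMod p) + single j i 1)ᵀ = single i j 1 + single j i 1
    rw [transpose_add, transpose_single, transpose_single, add_comm]⟩
  have h1 : (e * f).1 = f.1 := by
    rw [SymRing.val_mul]
    show single i i (1 : ZMod p) * (single i j 1 + single j i 1) +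
      (single i j 1 + single j i 1) * single i i 1 = single i j 1 + single j i 1
    rw [mul_add, add_mul, single_mul_single_same, single_mul_single_of_ne _ _ _ _ hij,
      single_mul_single_of_ne _ _ _ _ hij.symm, single_mul_single_same]
    simp
  have h2 : e * f = f := Subtype.ext h1
  have h3 : e * e = e + e := Subtype.ext (by
    rw [SymRing.val_mul]
    show single i i (1 : ZMod p) * single i i 1 + single i i 1 * single i i 1 =
      single i i 1 + single i i 1
    rw [single_mul_single_same, mul_one])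
  have h4 := h e e f
  rw [h3, add_mul, h2, h2] at h4
  have h5 : f = 0 := add_eq_left.1 h4
  have h6 : (single i j (1 : ZMod p) + single j i 1 : Matrix (Fin n) (Fin n) (ZMod p)) i j = 0 :=
    congrFun (congrFun (congrArg Subtype.val h5) i) j
  rw [Matrix.add_apply, single_apply_same, single_apply_of_ne _ _ _ _ _ (by tauto), add_zero] at h6
  exact one_ne_zero h6

/-- A nilpotent symmetric matrix with nonzero square. -/
lemma exists_symm {n p : ℕ} (hn : 3 ≤ n) [Fact p.Prime] :
    ∃ x : Matrix (Fin n) (Fin n) (ZMod p), xᵀ = x ∧ x * x ≠ 0 ∧ x * x * x = 0 := by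
  obtain ⟨a, b, hab⟩ := ZMod.sq_add_sq p (-1)
  let i0 : Fin n := ⟨0, by omega⟩
  let i1 : Fin n := ⟨1, by omega⟩
  let i2 : Fin n := ⟨2, by omega⟩
  have h01 : i0 ≠ i1 := by simp [i0, i1]
  have h02 : i0 ≠ i2 := by simp [i0, i2]
  have h12 : i1 ≠ i2 := by simp [i1, i2]
  let u : Fin n → ZMod p := Pi.single i0 a + Pi.single i1 b + Pi.single i2 1
  let v : Fin n → ZMod p := Pi.single i0 b - Pi.single i1 a
  have huu : u ⬝ᵥ u = 0 := by
    simp only [u, add_dotProduct, dotProduct_add, single_dotProduct, Pi.single_eq_same,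
      Pi.single_eq_of_ne h01, Pi.single_eq_of_ne h02, Pi.single_eq_of_ne h12,
      Pi.single_eq_of_ne h01.symm, Pi.single_eq_of_ne h02.symm, Pi.single_eq_of_ne h12.symm]
    linear_combination hab
  have huv : u ⬝ᵥ v = 0 := by
    simp only [u, v, add_dotProduct, dotProduct_sub, single_dotProduct, Pi.single_eq_same,
      Pi.single_eq_of_ne h01, Pi.single_eq_of_ne h01.symm, Pi.single_eq_of_ne h02.symm, Pi.single_eq_of_ne h12.symm]
    ring
  have hvv : v ⬝ᵥ v = -1 := by
    simp only [v, sub_dotProduct, dotProduct_sub, single_dotProduct, Pi.single_eq_same,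
      Pi.single_eq_of_ne h01, Pi.single_eq_of_ne h01.symm]
    linear_combination hab
  have hvu : v ⬝ᵥ u = 0 := by rw [dotProduct_comm, huv]
  have hmul : ∀ a b c d : Fin n → ZMod p,
      vecMulVec a b * vecMulVec c d = (b ⬝ᵥ c) • vecMulVec a d := by
    intro a b c d
    ext i j
    simp only [Matrix.mul_apply, vecMulVec_apply, Matrix.smul_apply, smul_eq_mul, dotProduct,
      Finset.sum_mul]
    exact Finset.sum_congr rfl fun k _ => by ring
  refine ⟨vecMulVec u v + vecMulVec v u, ?_, ?_, ?_⟩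
  · ext i j
    simp only [transpose_apply, Matrix.add_apply, vecMulVec_apply]
    ring
  · have h1 : (vecMulVec u v + vecMulVec v u) * (vecMulVec u v + vecMulVec v u) =
        -vecMulVec u u := by
      rw [add_mul, mul_add, mul_add, hmul, hmul, hmul, hmul, hvu, hvv, huu, huv]
      simp
    rw [h1]
    intro h2
    have h3 := congrFun (congrFun h2 i2) i2
    simp only [Matrix.neg_apply, vecMulVec_apply, Matrix.zero_apply, u, Pi.add_apply,
      Pi.single_eq_same, Pi.single_eq_of_ne h02.symm, Pi.single_eq_of_ne h12.symm] at h3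
    simp at h3
  · have h1 : (vecMulVec u v + vecMulVec v u) * (vecMulVec u v + vecMulVec v u) =
        -vecMulVec u u := by
      rw [add_mul, mul_add, mul_add, hmul, hmul, hmul, hmul, hvu, hvv, huu, huv]
      simp
    rw [h1, neg_mul, mul_add, hmul, hmul, huu, huv]
    simp

/-- The subring spanned by `x` and `x ^ 2`, where `x ^ 3 = 0`. -/
def nilSub {n p : ℕ} (x : Matrix (Fin n) (Fin n) (ZMod p)) (h3 : x * x * x = 0) :
    NonUnitalSubring (SymRing n p) where
  carrier := {y | ∃ a b : ZMod p, y.1 = a • x + b • (x * x)}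
  zero_mem' := ⟨0, 0, by
    show (0 : Matrix (Fin n) (Fin n) (ZMod p)) = _
    rw [zero_smul, zero_smul, add_zero]⟩
  add_mem' := by
    rintro y z ⟨a, b, hy⟩ ⟨c, d, hz⟩
    refine ⟨a + c, b + d, ?_⟩
    show y.1 + z.1 = _
    rw [hy, hz, add_smul, add_smul]
    abel
  neg_mem' := by
    rintro y ⟨a, b, hy⟩
    refine ⟨-a, -b, ?_⟩
    show -y.1 = _
    rw [hy, neg_smul, neg_smul, neg_add]
  mul_mem' := by
    rintro y z ⟨a, b, hy⟩ ⟨c, d, hz⟩
    refine ⟨0, 2 * (a * c), ?_⟩
    have h3' : x * (x * x) = 0 := by rw [← mul_assoc, h3]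
    have h4 : x * x * (x * x) = 0 := by rw [← mul_assoc, h3, zero_mul]
    rw [SymRing.val_mul, hy, hz]
    simp only [add_mul, mul_add, smul_mul_assoc, mul_smul_comm, h3, h3', h4, smul_zero, add_zero,
      zero_add, zero_smul, smul_smul]
    rw [← add_smul]
    congr 1
    ring

lemma nilSub_mul {n p : ℕ} (x : Matrix (Fin n) (Fin n) (ZMod p)) (h3 : x * x * x = 0)
    (y z : SymRing n p) {a b c d : ZMod p} (hy : y.1 = a • x + b • (x * x))
    (hz : z.1 = c • x + d • (x * x)) : (y * z).1 = (2 * (a * c)) • (x * x) := by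
  have h3' : x * (x * x) = 0 := by rw [← mul_assoc, h3]
  have h4 : x * x * (x * x) = 0 := by rw [← mul_assoc, h3, zero_mul]
  rw [SymRing.val_mul, hy, hz]
  simp only [add_mul, mul_add, smul_mul_assoc, mul_smul_comm, h3, h3', h4, smul_zero, add_zero,
    smul_smul]
  rw [← add_smul]
  congr 1
  ring

lemma nilSub_nil {n p : ℕ} (x : Matrix (Fin n) (Fin n) (ZMod p)) (h3 : x * x * x = 0) :
    NilpotentRing (nilSub x h3) := by
  have key : ∀ (k : ℕ) (y : nilSub x h3), IsProduct k y →
      (2 ≤ k → ∃ b : ZMod p, y.1.1 = b • (x * x)) ∧ (3 ≤ k → y = 0) ∧ 1 ≤ k := by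
    intro k y hy
    induction hy with
    | elem a => exact ⟨by omega, by omega, le_rfl⟩
    | @mul i j y z _ _ h1 h2 =>
      obtain ⟨h11, h12, h13⟩ := h1
      obtain ⟨h21, h22, h23⟩ := h2
      obtain ⟨a, b, hy⟩ := y.2
      obtain ⟨c, d, hz⟩ := z.2
      refine ⟨fun _ => ⟨2 * (a * c), nilSub_mul x h3 y.1 z.1 hy hz⟩, fun hk => ?_, by omega⟩
      apply Subtype.ext
      apply Subtype.ext
      show (y.1 * z.1).1 = 0
      rcases (by omega : 2 ≤ i ∨ 2 ≤ j) with h | h
      · obtain ⟨b', hb'⟩ := h11 h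
        rw [nilSub_mul x h3 y.1 z.1 (a := 0) (b := b') (by rw [hb', zero_smul, zero_add]) hz,
          zero_mul, mul_zero, zero_smul]
      · obtain ⟨b', hb'⟩ := h21 h
        rw [nilSub_mul x h3 y.1 z.1 (c := 0) (d := b') hy (by rw [hb', zero_smul, zero_add]),
          mul_zero, mul_zero, zero_smul]
  exact ⟨3, by norm_num, fun y hy => (key 3 y hy).2.1 le_rfl⟩

/-- A finite ring with a finite basis of quasi-identities has only nilpotent subrings with zero
multiplication. -/
lemma null_of_basis (A : Type) [NonUnitalNonAssocRing A] [Finite A] (hbasis : HasFiniteBasis A)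
    (N : NonUnitalSubring A) (hN : NilpotentRing N) (x : A) (hx : x ∈ N) (y : A) (hy : y ∈ N) :
    x * y = 0 := by
  by_contra h
  refine mainAll A N (NonUnitalSubringClass.subtype N) Subtype.val_injective hN ⟨x, hx⟩ ⟨y, hy⟩
    (fun h0 => h ?_) hbasis
  exact congrArg Subtype.val h0

lemma sym_no_basis (p n : ℕ) [hp : Fact p.Prime] (hp2 : p ≠ 2) (hn : 3 ≤ n) :
    ¬ HasFiniteBasis (SymRing n p) := by
  intro hb
  obtain ⟨x, hx, hx2, hx3⟩ := exists_symm (p := p) hn
  let y : SymRing n p := ⟨x, hx⟩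
  have hy : y ∈ nilSub x hx3 := ⟨1, 0, by
    show x = _
    rw [one_smul, zero_smul, add_zero]⟩
  have h1 := null_of_basis (SymRing n p) hb (nilSub x hx3) (nilSub_nil x hx3) y hy y hy
  have h2 : x * x + x * x = 0 := congrArg Subtype.val h1
  rw [← two_smul (ZMod p) (x * x)] at h2
  rcases smul_eq_zero.1 h2 with h3 | h3
  · have h4 : ((2 : ℕ) : ZMod p) = 0 := by exact_mod_cast h3
    rw [ZMod.natCast_eq_zero_iff] at h4
    exact hp2 ((Nat.prime_dvd_prime_iff_eq hp.out Nat.prime_two).1 h4)
  · exact hx2 h3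

/-- (1) In a finite (not necessarily associative) ring which has a finite basis of quasi-identities
all nilpotent subrings have zero multiplication. (2) For every prime `p` there is a Jordan ring with
`p ^ 4` elements which is not associative and has no finite basis of quasi-identities. (3) For every
odd prime `p` and every `n ≥ 3` the ring of the symmetric `n × n` matrices over `ZMod p` with the
product `x y + y x` is a finite Jordan ring, not associative, without a finite basis of
quasi-identities. -/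
theorem result :
    (∀ (A : Type) [NonUnitalNonAssocRing A], Finite A → HasFiniteBasis A →
      ∀ N : NonUnitalSubring A, NilpotentRing N → ∀ x ∈ N, ∀ y ∈ N, x * y = 0) ∧
    (∀ p : ℕ, p.Prime → ∃ (A : Type) (_ : NonUnitalNonAssocRing A), Nat.card A = p ^ 4 ∧
      IsJordanRing A ∧ ¬ IsAssociativeRing A ∧ ¬ HasFiniteBasis A) ∧
    (∀ p : ℕ, p.Prime → p ≠ 2 → ∀ n : ℕ, 3 ≤ n →
      Finite (SymRing n p) ∧ IsJordanRing (SymRing n p) ∧ ¬ IsAssociativeRing (SymRing n p) ∧
      ¬ HasFiniteBasis (SymRing n p)) := by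
  refine ⟨fun A _ _ hb N hN x hx y hy => null_of_basis A hb N hN x hx y hy, fun p hp => ?_,
    fun p hp hp2 n hn => ?_⟩
  · have : Fact p.Prime := ⟨hp⟩
    refine ⟨Ring4 p, inferInstance, Ring4.card p, Ring4.jordan p, Ring4.not_assoc p, fun hb => ?_⟩
    let a : Ring4 p := ((1, 0, 0, 0) : ZMod p × ZMod p × ZMod p × ZMod p)
    refine mainAll (Ring4 p) (Ring4 p) (NonUnitalRingHom.id _) (fun _ _ h => h) (Ring4.nil p) a a
      (fun h => ?_) hb
    have h1 : (1 : ZMod p) * 1 = 0 := congrArg (fun w : Ring4 p => w.2.2.1) h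
    rw [mul_one] at h1
    exact one_ne_zero h1
  · have : Fact p.Prime := ⟨hp⟩
    exact ⟨inferInstance, SymRing.jordan n p, SymRing.not_assoc (by omega),
      sym_no_basis p n hp2 hn⟩

end Pool.Agent.Results.MP_db5ef1_al.JordanRings
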